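import Pool.Agent.WIR.StmtsA

/-!
WIR, row TSZ: meaning of the size of a triangle.
-/

namespace Pool.Agent.WIR.H28

open Pool.Agent.WIR

/-- **TSZ** -/
theorem tsz : TszStmt := by
  intro N q j l m hm hj hl
  have hx : 0 < |(m : ℝ)| := abs_pos.2 (Int.cast_ne_zero.2 hm)
  have hT : (0 : ℝ) < eps * 3 ^ N := by
    unfold eps
    positivity
  have hTx : 0 < eps * 3 ^ N / |(m : ℝ)| := div_pos hT hx
  have h1 : |((9 ^ (j - q.1) * 2 ^ (q.2 - l) * m : ℤ) : ℝ)| =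
      ((9 : ℝ) ^ (j - q.1) * 2 ^ (q.2 - l)) * |(m : ℝ)| := by
    push_cast
    rw [abs_mul, abs_of_pos (by positivity : (0 : ℝ) < 9 ^ (j - q.1) * 2 ^ (q.2 - l))]
  have h2 : |((9 ^ (j - q.1) * 2 ^ (q.2 - l) * m : ℤ) : ℝ)| ≤ eps * 3 ^ N ↔
      (9 : ℝ) ^ (j - q.1) * 2 ^ (q.2 - l) ≤ eps * 3 ^ N / |(m : ℝ)| := by
    rw [h1, le_div_iff₀ hx]
  have hlog : Real.logb 2 ((9 : ℝ) ^ (j - q.1) * 2 ^ (q.2 - l)) =
      lam * ((j : ℝ) - q.1) + ((q.2 : ℝ) - l) := by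
    rw [Real.logb_mul (by positivity) (by positivity), Real.logb_pow, Real.logb_pow,
      Real.logb_self_eq_one (by norm_num), Nat.cast_sub hj, Nat.cast_sub hl]
    unfold lam
    ring
  rw [h2]
  have hpos : (0 : ℝ) < (9 : ℝ) ^ (j - q.1) * 2 ^ (q.2 - l) := by positivity
  constructor
  · intro h
    refine ⟨hj, hl, ?_⟩
    rw [← hlog]
    exact Real.logb_le_logb_of_le (by norm_num) hpos h
  · rintro ⟨_, _, h⟩
    rw [← hlog] at h
    exact (Real.logb_le_logb (by norm_num) hpos hTx).1 h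

end Pool.Agent.WIR.H28
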